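import Pool.Agent.PCS.Stmts

/-! Squad PCS (MP_c4a8aa_al), row NEU (helper75): neutral children. -/

namespace Pool.Agent.PCS.H75

open Pool.Agent.PCS

/-- **Row NEU.** -/
theorem neu (_lev : LevStmt) (rks : RksStmt) : NeuStmt := by
  intro Γ V _ _ T S rk R hR hS v x hx
  obtain ⟨hpx, hlx, hNx, hsx⟩ := hx
  obtain ⟨r1, r2, -, r4, r5⟩ := rks Γ V T S rk R hR hS
  have hpos : 0 < T.lv x := by omega
  obtain ⟨-, -, heq⟩ := r5 x hpos (by rw [hpx]; exact hNx)
  have hall := heq (by rw [hpx]; exact hsx)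
  have hξ : ∀ g : Γ, T.par (g • x) = g • v := fun g => by rw [T.par_smul, hpx]
  refine ⟨le_antisymm ?_ ?_, ?_⟩
  · have h := r4 x hpos
    rwa [hpx] at h
  · obtain ⟨-, s, hs, w, hw, hrk⟩ := r2 v
    obtain ⟨g, rfl⟩ := MulAction.mem_orbit_iff.1 hw
    rw [← hrk, ← hξ g, ← hall s hs _ (MulAction.mem_orbit x g)]
    exact r1 x s hs _ (MulAction.mem_orbit x g)
  · intro hdel y hpy hly hyx
    obtain ⟨-, s, hs, w, hw, hrk⟩ := r2 y
    obtain ⟨g, rfl⟩ := MulAction.mem_orbit_iff.1 hw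
    have hζ : T.par (g • y) = g • v := by rw [T.par_smul, hpy]
    have hlζ : 0 < T.lv (g • y) := by rw [T.lv_smul]; omega
    have hlξ : 0 < T.lv (g • x) := by rw [T.lv_smul]; exact hpos
    have hmono : rk s (g • y) ≤ rk s (g • v) := by
      have h := hR.mono s hs (g • y) hlζ
      rwa [hζ] at h
    rw [← hrk]
    rcases Nat.eq_zero_or_pos (rk s (g • v)) with h0 | h0
    · omega
    · have hle : rk s (g • v) ≤ del S rk v := r1 v s hs _ (MulAction.mem_orbit v g)
      have hne : rk s (g • y) ≠ rk s (g • v) := by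
        intro he
        have h1 : g • y = g • x := hR.uniq s hs (g • y) (g • x) hlζ hlξ (by rw [hζ, hξ])
          (by rw [hζ]; exact h0) (by rw [hζ]; exact he)
          (hall s hs _ (MulAction.mem_orbit x g))
        exact hyx (smul_left_cancel g h1)
      omega

end Pool.Agent.PCS.H75
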